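import Pool.Agent.Q253.MST.Main

/-!
# MP_3865e9_co: multiple state transfer on six vertices of an unweighted oriented graph
-/

namespace Pool.Agent.Results.MP_3865e9_co.SixVertices

open Matrix Complex

/-- an oriented graph on `V`: `arc a b` means `a → b`; there are no loops and no two opposite arcs -/
structure OrientedGraph (V : Type) where
  arc : V → V → Prop
  asymm : ∀ a b, arc a b → ¬ arc b a

variable {V : Type}

open Classical in
/-- the skew adjacency matrix `S` -/
noncomputable def OrientedGraph.skewAdj (X : OrientedGraph V) : Matrix V V ℂ :=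
  fun a b => if X.arc a b then 1 else if X.arc b a then -1 else 0

/-- the Hermitian matrix `M = i S` -/
noncomputable def OrientedGraph.hermAdj (X : OrientedGraph V) : Matrix V V ℂ := I • X.skewAdj

variable [Fintype V] [DecidableEq V]

/-- the transition matrix `U(t) = exp (i t M)` -/
noncomputable def OrientedGraph.transition (X : OrientedGraph V) (t : ℝ) : Matrix V V ℂ :=
  NormedSpace.exp ((I * t : ℂ) • X.hermAdj)

/-- perfect state transfer from `a` to `b` at time `t` -/
def OrientedGraph.PerfectTransfer (X : OrientedGraph V) (a b : V) (t : ℝ) : Prop :=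
  ∃ α : ℂ, X.transition t *ᵥ Pi.single a 1 = α • Pi.single b 1

/-- multiple state transfer on the set `S` -/
def OrientedGraph.MultipleTransfer (X : OrientedGraph V) (S : Finset V) : Prop :=
  2 < S.card ∧ ∀ a ∈ S, ∀ b ∈ S, a ≠ b → ∃ t : ℝ, X.PerfectTransfer a b t

open Pool.Agent.Q253.MST

/-- the Cartesian product of `X` (`3 + 96` vertices) and `Y` (`2 + 54` vertices) -/
def G : OrientedGraph (VX × VY) where
  arc p q := (arcX p.1 q.1 ∧ p.2 = q.2) ∨ (p.1 = q.1 ∧ arcY p.2 q.2)
  asymm := by
    rintro ⟨a, b⟩ ⟨a', b'⟩ (⟨h1, h2⟩ | ⟨h1, h2⟩) (⟨h3, h4⟩ | ⟨h3, h4⟩)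
    · exact arcX_asymm _ _ h1 h3
    · dsimp only at h1 h3
      rw [h3] at h1
      exact arcX_asymm _ _ h1 h1
    · dsimp only at h1 h3
      rw [h1] at h3
      exact arcX_asymm _ _ h3 h3
    · exact arcY_asymm _ _ h2 h4

theorem G_skew (a : VX) (b : VY) (a' : VX) (b' : VY) : G.skewAdj (a, b) (a', b') =
    (if b = b' then skew arcX a a' else 0) + if a = a' then skew arcY b b' else 0 := by
  have hX : ¬ arcX a a ∧ ¬ arcY b b :=
    ⟨fun h => arcX_asymm _ _ h h, fun h => arcY_asymm _ _ h h⟩
  have e : G.skewAdj (a, b) (a', b') =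
      if (arcX a a' ∧ b = b') ∨ (a = a' ∧ arcY b b') then 1 else
        if (arcX a' a ∧ b' = b) ∨ (a' = a ∧ arcY b' b) then -1 else 0 := by
    unfold OrientedGraph.skewAdj G
    dsimp only
    congr
  rw [e, skew_apply, skew_apply]
  by_cases h1 : a = a'
  · subst h1
    by_cases h2 : b = b'
    · subst h2
      simp [hX.1, hX.2]
    · have h2' : ¬ b' = b := fun h => h2 h.symm
      simp [h2, h2']
  · have h1' : ¬ a' = a := fun h => h1 h.symm
    by_cases h2 : b = b'
    · subst h2
      simp [h1, h1']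
    · have h2' : ¬ b' = b := fun h => h2 h.symm
      simp [h1, h1', h2, h2']

/-- the vertex `(a m, y)` -/
def pt (m : Fin 3) (y : Fin 2) : VX × VY := (Sum.inl m, Sum.inl y)

theorem step (m : Fin 3) (y : Fin 2) :
    G.transition t1 *ᵥ Pi.single (pt m y) 1 = Pi.single (pt (m + 2) (y + 1)) 1 := by
  have h := (Dec.prod (R := G.skewAdj) G_skew (decX m) (decY y)).exp
  have e : ∀ (m : Fin 3) (y : Fin 2), (fun p : VX × VY =>
      (Pi.single (M := fun _ => ℂ) (Sum.inl m) 1 : VX → ℂ) p.1 *
        (Pi.single (M := fun _ => ℂ) (Sum.inl y) 1 : VY → ℂ) p.2) =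
      Pi.single (pt m y) 1 := by
    intro m y
    funext ⟨a, b⟩
    simp only [Pi.single_apply, pt, Prod.mk.injEq]
    by_cases h1 : a = Sum.inl m <;> by_cases h2 : b = Sum.inl y <;> simp [h1, h2]
  rw [e, e] at h
  exact h

/-- the motion of the six vertices in time `t1` -/
def sh (p : Fin 3 × Fin 2) : Fin 3 × Fin 2 := (p.1 + 2, p.2 + 1)

theorem steps (k : ℕ) (p : Fin 3 × Fin 2) :
    G.transition (k * t1) *ᵥ Pi.single (pt p.1 p.2) 1 =
      Pi.single (pt (sh^[k] p).1 (sh^[k] p).2) 1 := by
  have hk : G.transition (k * t1) = G.transition t1 ^ k := by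
    unfold OrientedGraph.transition
    rw [← Matrix.exp_nsmul]
    congr 1
    rw [← Nat.cast_smul_eq_nsmul ℂ, smul_smul]
    congr 1
    push_cast
    ring
  rw [hk]
  clear hk
  induction k with
  | zero =>
    rw [pow_zero, Matrix.one_mulVec]
    rfl
  | succ k ih =>
    rw [pow_succ', ← Matrix.mulVec_mulVec, ih, step, Function.iterate_succ_apply']
    rfl

/-- **There is an unweighted oriented graph with multiple state transfer on a set of six
vertices.** -/
theorem result : ∃ (V : Type) (_ : Fintype V) (_ : DecidableEq V) (X : OrientedGraph V)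
    (S : Finset V), S.card = 6 ∧ X.MultipleTransfer S := by
  have hcard : (Finset.univ.image fun p : Fin 3 × Fin 2 => pt p.1 p.2).card = 6 := by
    rw [Finset.card_image_of_injective]
    · simp
    · rintro ⟨m, y⟩ ⟨m', y'⟩ h
      simp only [pt, Prod.mk.injEq, Sum.inl.injEq] at h
      exact Prod.ext h.1 h.2
  refine ⟨VX × VY, inferInstance, inferInstance, G,
    Finset.univ.image fun p : Fin 3 × Fin 2 => pt p.1 p.2, hcard, ?_, ?_⟩
  · rw [hcard]; norm_num
  · intro a ha b hb _
    obtain ⟨⟨m, y⟩, -, rfl⟩ := Finset.mem_image.1 ha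
    obtain ⟨⟨m', y'⟩, -, rfl⟩ := Finset.mem_image.1 hb
    have hk : ∀ p q : Fin 3 × Fin 2, ∃ k : Fin 6, sh^[(k : ℕ)] p = q := by decide
    obtain ⟨k, h1⟩ := hk (m, y) (m', y')
    refine ⟨((k : ℕ) : ℝ) * t1, 1, ?_⟩
    have h2 := steps (k : ℕ) (m, y)
    rw [h1] at h2
    rw [one_smul]
    exact h2

end Pool.Agent.Results.MP_3865e9_co.SixVertices
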